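import Pool.Agent.Helper85.AE.Enum
import Pool.Agent.Helper85.AE.Few
import Pool.Agent.TH646.LV.Level

/-!
# Level of distribution `N exp (-K (log log N) ^ 2)` for the residues `s(m)`, for almost all `m`

Let `s(m) = σ(m) - m` be the sum of the proper divisors of `m`. For every `ε > 0` there is a `K` such that for all large `N`
the primes have, for all but `ε N` of the `m ≤ N`, the level of distribution `Q = N exp (-K (log log N) ^ 2)` for both
residues `a = s(m)` and `a = m - φ(m)`: the sum of `λ(q) (ψ(y; q, a) - y / φ(q))` over all `q ≤ Q` coprime to `a` is at most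
`N / (log N)^U` in absolute value, for all `y ≤ B N`, for arbitrary coefficients `|λ(q)| ≤ (log N)^T`, and for up to
`(log N)^T` systems of coefficients at once. The same is true for all residues `a = u m + v f(m) + w` which are neither too
small nor too large, with integers `u ≠ 0`, `v`, `w` and a positive multiplicative function `f` of moderate growth with
`f(p) = p + c`, `c ≠ 0`, for all large primes `p`.

For every class `a mod q` on the average over ALL integers `a` one can take moduli up to `N / (log N)^A` (Barban, Davenport,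
Halberstam); but the values `s(m)`, `m ≤ N`, are a sparse multiset with large multiplicities (a set of `N^(1 - δ)` integers
is known to have few preimages under `s` only for `δ ≥ 1 / 2`), so a result for almost all integers says nothing on them.

Proof. The values `s(m)` at almost all `m` have nearly minimal additive energy (`Helper85/AE`: `m = k Q P` with two large
primes, `s(m) = (A(k) Q + B(k)) P + C(k, Q)`, and the lemma of Vinogradov is applied to `Q` and to `k`). The theorem on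
families of nearly minimal energy (`TH646/LV`, starting files) completes the proof.
-/

set_option autoImplicit false

namespace Pool.Agent.Results.MP_00e23e_nt.AliquotResidues

open Finset

/-- A positive multiplicative function with `f m ≤ m (1 + log m)^C` and `f p = p + c` for all large primes `p`. -/
structure Moderate (f : ℕ → ℕ) (c : ℤ) : Prop where
  mul : ∀ m n : ℕ, Nat.Coprime m n → f (m * n) = f m * f n
  pos : ∀ m : ℕ, 1 ≤ m → 1 ≤ f m
  growth : ∃ C : ℕ, ∀ m : ℕ, 1 ≤ m → (f m : ℝ) ≤ m * (1 + Real.log m) ^ C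
  prime : ∃ P : ℕ, ∀ p : ℕ, P ≤ p → p.Prime → (f p : ℤ) = p + c

/-- The sum of the proper divisors. -/
def aliquot (m : ℕ) : ℕ := ∑ d ∈ m.properDivisors, d

open Classical in
/-- The number of the `m` in `{1, ..., x}` with the property `E`. -/
noncomputable def num (x : ℕ) (E : ℕ → Prop) : ℝ := (((Icc 1 x).filter E).card : ℝ)

/-- `ψ(y; q, a)`: the sum of `Λ(n)` over the `n ≤ y` with `n ≡ a (mod q)`. -/
noncomputable def psi (y q a : ℕ) : ℝ :=
  ∑ n ∈ (Icc 1 y).filter (fun n => n ≡ a [MOD q]), ArithmeticFunction.vonMangoldt n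

/-- The sum of `λ(q) (ψ(y; q, a) - y / φ(q))` over the `q ≤ Q` coprime to `a`. -/
noncomputable def weighted (lam : ℕ → ℝ) (Q y a : ℕ) : ℝ :=
  ∑ q ∈ (Icc 1 Q).filter (fun q => a.Coprime q), lam q * (psi y q a - (y : ℝ) / Nat.totient q)

/-- The level `N exp (-K (log log N) ^ 2)`, rounded down. -/
noncomputable def level (K N : ℕ) : ℕ := ⌊(N : ℝ) * Real.exp (-(K * Real.log (Real.log N) ^ 2))⌋₊

/-- The primes are well distributed in the residue classes of `a`: for all the systems `λ_l` of coefficients and all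
`y ≤ B N` the weighted sum up to the level `N exp (-K (log log N) ^ 2)` is at most `N / (log N)^U`. -/
def Well (K B U N L : ℕ) (lam : Fin L → ℕ → ℝ) (a : ℕ) : Prop :=
  ∀ l, ∀ y ≤ B * N, |weighted (lam l) (level K N) y a| ≤ N / Real.log N ^ U

lemma num_mono {x : ℕ} {E F : ℕ → Prop} (h : ∀ m ∈ Icc 1 x, E m → F m) : num x E ≤ num x F := by
  classical
  unfold num
  apply Nat.cast_le.2
  apply card_le_card
  intro m hm
  rw [mem_filter] at hm ⊢
  exact ⟨hm.1, h m hm.1 hm.2⟩

lemma num_or {x : ℕ} (E F : ℕ → Prop) : num x (fun m => E m ∨ F m) ≤ num x E + num x F := by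
  classical
  unfold num
  have h1 : (Icc 1 x).filter (fun m => E m ∨ F m) ⊆ (Icc 1 x).filter E ∪ (Icc 1 x).filter F := by
    intro m hm
    rw [mem_filter] at hm
    rw [mem_union, mem_filter, mem_filter]
    rcases hm.2 with h | h
    · exact Or.inl ⟨hm.1, h⟩
    · exact Or.inr ⟨hm.1, h⟩
  have h2 := (card_le_card h1).trans (card_union_le _ _)
  have h3 : (((Icc 1 x).filter (fun m => E m ∨ F m)).card : ℝ) ≤ ((Icc 1 x).filter E).card + ((Icc 1 x).filter F).card := by
    exact_mod_cast h2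
  convert h3

/-- one system of coefficients and one height after another -/
lemma lv (p B C T U : ℕ) : ∃ K N₀ : ℕ, ∀ N : ℕ, N₀ ≤ N →
    ∀ (S : Finset ℕ) (F : ℕ → ℤ), (∀ m ∈ S, |F m| ≤ B * N) →
    (Pool.Agent.TH935.GF.En p (fun m : {m // m ∈ S} => F m.1) : ℝ) * N ≤ Real.log N ^ C * (S.card : ℝ) ^ (2 * p) →
    ∀ L : ℕ, (L : ℝ) ≤ Real.log N ^ T → ∀ lam : Fin L → ℕ → ℝ, (∀ l q, |lam l q| ≤ Real.log N ^ T) →
      ∀ S' : Finset ℕ, S' ⊆ S → (∀ m ∈ S', 0 < F m ∧ ¬ Well K B U N L lam (F m).toNat) →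
      (S'.card : ℝ) ≤ S.card / Real.log N ^ U := by
  classical
  obtain ⟨K, N₀, h0⟩ := Pool.Agent.TH646.LV.lv_fam p B C T (T + U)
  refine ⟨K, N₀ + 3, fun N hN S F hF hE L hL lam hlam S' hS' hbad => ?_⟩
  have hlog1 : 1 ≤ Real.log N := by
    rw [Real.le_log_iff_exp_le (by exact_mod_cast (by omega : 0 < N))]
    have : (3 : ℝ) ≤ N := by exact_mod_cast (by omega : 3 ≤ N)
    linarith [Real.exp_one_lt_d9]
  have hlog0 : 0 < Real.log N := by linarith
  obtain ⟨e, he1, he2, he3, he4⟩ := Pool.Agent.Helper85.AE.enum_family S F p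
  obtain ⟨Z, hZ⟩ : ∃ Z : Fin L → Finset ℕ, ∀ l, Z l = (Icc 1 S.card).filter (fun j => 0 < F (e j) ∧ ∃ y ≤ B * N,
      N / Real.log N ^ U < |weighted (lam l) (level K N) y (F (e j)).toNat|) := ⟨_, fun _ => rfl⟩
  have h1 : ∀ l : Fin L, ((Z l).card : ℝ) ≤ S.card / Real.log N ^ (T + U) := by
    intro l
    refine h0 N (by omega) S.card (fun j => F (e j)) (fun j hj => hF _ (he1 j hj)) ?_ (lam l) (hlam l) (level K N)
      (Nat.floor_le (by positivity)) (Z l) (by rw [hZ]; exact filter_subset _ _) ?_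
    · refine le_trans ?_ hE
      apply mul_le_mul_of_nonneg_right _ (Nat.cast_nonneg _)
      exact_mod_cast he4
    · intro j hj
      rw [hZ, mem_filter] at hj
      obtain ⟨_, h3, y, hy, h4⟩ := hj
      refine ⟨h3, y, hy, lt_of_le_of_lt ?_ h4⟩
      apply div_le_div_of_nonneg_left (Nat.cast_nonneg _) (by positivity)
      exact pow_le_pow_right₀ hlog1 (by omega)
  have hsub : S' ⊆ (univ : Finset (Fin L)).biUnion (fun l => (Z l).image e) := by
    intro m hm
    obtain ⟨h2, h3⟩ := hbad m hm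
    unfold Well at h3
    push Not at h3
    obtain ⟨l, y, hy, h4⟩ := h3
    obtain ⟨j, hj, hjm⟩ := he3 m (hS' hm)
    rw [mem_biUnion]
    refine ⟨l, mem_univ _, ?_⟩
    rw [mem_image]
    refine ⟨j, ?_, hjm⟩
    rw [hZ, mem_filter, hjm]
    exact ⟨hj, h2, y, hy, h4⟩
  have h5 : (S'.card : ℝ) ≤ ∑ l : Fin L, ((Z l).card : ℝ) := by
    have h6 : S'.card ≤ ∑ l : Fin L, (Z l).card :=
      (card_le_card hsub).trans (card_biUnion_le.trans (sum_le_sum fun l _ => card_image_le))
    exact_mod_cast h6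
  calc (S'.card : ℝ) ≤ ∑ l : Fin L, ((Z l).card : ℝ) := h5
    _ ≤ ∑ _l : Fin L, (S.card : ℝ) / Real.log N ^ (T + U) := sum_le_sum fun l _ => h1 l
    _ = L * (S.card / Real.log N ^ (T + U)) := by
        rw [sum_const, card_univ, Fintype.card_fin, nsmul_eq_mul]
    _ ≤ Real.log N ^ T * (S.card / Real.log N ^ (T + U)) := mul_le_mul_of_nonneg_right hL (by positivity)
    _ = S.card / Real.log N ^ U := by
        rw [pow_add]
        field_simp

theorem general (f : ℕ → ℕ) (c u v w : ℤ) (hf : Moderate f c) (hc : c ≠ 0) (hu : u ≠ 0) (ε : ℝ) (hε : 0 < ε)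
    (B C T U : ℕ) : ∃ K N₀ : ℕ, ∀ N : ℕ, N₀ ≤ N → ∀ L : ℕ, (L : ℝ) ≤ Real.log N ^ T →
      ∀ lam : Fin L → ℕ → ℝ, (∀ l q, |lam l q| ≤ Real.log N ^ T) →
      num N (fun m => (m : ℝ) / Real.log m ^ C ≤ ((u * m + v * f m + w : ℤ) : ℝ) ∧ u * m + v * f m + w ≤ B * N ∧
        ¬ Well K B U N L lam (u * m + v * f m + w).toNat) ≤ ε * N := by
  classical
  obtain ⟨h, C₁, x₀, hh, hfam⟩ := Pool.Agent.Helper85.AE.family (f := f) (c := c) ⟨hf.mul, hf.pos, hf.growth, hf.prime⟩
    hc u v w hu C (ε / 4) (by positivity)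
  obtain ⟨K, N₀, hlv⟩ := lv h B (C₁ + 2 * h) T (U + 1)
  obtain ⟨n1, hn1⟩ := Pool.Agent.Helper85.AE.ev_log (4 + 4 / ε)
  obtain ⟨n2, hn2⟩ := exists_nat_gt (8 / ε)
  refine ⟨K, x₀ + N₀ + n1 + n2 + 3, fun N hN L hL lam hlam => ?_⟩
  obtain ⟨S, hSx, ⟨E, hE, hSE⟩, -, hSen⟩ := hfam N (by omega)
  have hN3 : (3 : ℝ) ≤ N := by exact_mod_cast (by omega : 3 ≤ N)
  have hN0 : (0 : ℝ) < N := by linarith
  obtain ⟨l, hl⟩ : ∃ l, l = Real.log N := ⟨_, rfl⟩
  have hl1 : 4 + 4 / ε ≤ l := by rw [hl]; exact hn1 N (by omega)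
  have hε4 : 0 < 4 / ε := by positivity
  have hl4 : 4 ≤ l := by linarith
  have hlε : 4 ≤ ε * l := by
    have : 4 / ε ≤ l := by linarith
    rwa [div_le_iff₀ hε, mul_comm] at this
  obtain ⟨Bad, hBad⟩ : ∃ Bad : Finset ℕ, Bad = (Icc 1 N).filter (fun m : ℕ => (m : ℝ) / Real.log m ^ C ≤
    ((u * m + v * f m + w : ℤ) : ℝ) ∧ u * m + v * f m + w ≤ B * N ∧ ¬ Well K B U N L lam (u * m + v * f m + w).toNat) :=
    ⟨_, rfl⟩
  suffices hsuf : (Bad.card : ℝ) ≤ ε * N by
    rw [hBad] at hsuf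
    unfold num
    convert hsuf
  have hBm : ∀ m ∈ Bad, m ∈ Icc 1 N ∧ (m : ℝ) / Real.log m ^ C ≤ ((u * m + v * f m + w : ℤ) : ℝ) ∧
      u * m + v * f m + w ≤ B * N ∧ ¬ Well K B U N L lam (u * m + v * f m + w).toNat := by
    intro m hm
    rw [hBad, mem_filter] at hm
    exact hm
  obtain ⟨S₁, hS₁⟩ : ∃ S₁ : Finset ℕ, S₁ = S.filter (fun m : ℕ => 1 < m ∧ (m : ℝ) / Real.log m ^ C ≤
    ((u * m + v * f m + w : ℤ) : ℝ) ∧ u * m + v * f m + w ≤ B * N) := ⟨_, rfl⟩
  have hS₁S : ∀ m ∈ S₁, m ∈ S := by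
    intro m hm
    rw [hS₁, mem_filter] at hm
    exact hm.1
  have hpos : ∀ m : ℕ, 1 < m → (m : ℝ) / Real.log m ^ C ≤ ((u * m + v * f m + w : ℤ) : ℝ) → 0 < u * m + v * f m + w := by
    intro m hm h2
    have h1 : (1 : ℝ) < (m : ℝ) := by exact_mod_cast hm
    have h3 := Real.log_pos h1
    have : (0 : ℝ) < ((u * m + v * f m + w : ℤ) : ℝ) := lt_of_lt_of_le (by positivity) h2
    exact_mod_cast this
  have hsub : Bad ⊆ E ∪ ({1} ∪ Bad.filter (fun m => m ∈ S₁)) := by
    intro m hm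
    obtain ⟨h1, h2, h3, h4⟩ := hBm m hm
    rw [mem_union, mem_union, mem_singleton, mem_filter]
    by_cases hm1 : m = 1
    · right; left; exact hm1
    · have hm2 : 1 < m := by
        have := (mem_Icc.1 h1).1
        omega
      have hlogm : 0 < Real.log m := Real.log_pos (by exact_mod_cast hm2)
      by_cases hmS : m ∈ S
      · right; right
        refine ⟨hm, ?_⟩
        rw [hS₁, mem_filter]
        exact ⟨hmS, hm2, h2, h3⟩
      · left
        apply hSE m h1 hmS
        have h5 : (m : ℝ) / Real.log N ^ C ≤ (m : ℝ) / Real.log m ^ C := by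
          apply div_le_div_of_nonneg_left (Nat.cast_nonneg _) (by positivity)
          apply pow_le_pow_left₀ hlogm.le
          apply Real.log_le_log (by exact_mod_cast (by omega : 0 < m))
          exact_mod_cast (mem_Icc.1 h1).2
        exact (h5.trans h2).trans (le_abs_self _)
  have hcard : (Bad.card : ℝ) ≤ E.card + (1 + (Bad.filter (fun m => m ∈ S₁)).card) := by
    have h1 := (card_le_card hsub).trans ((card_union_le _ _).trans (add_le_add le_rfl (card_union_le _ _)))
    rw [card_singleton] at h1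
    exact_mod_cast h1
  have h8 : 1 ≤ ε / 8 * N := by
    have : 8 / ε ≤ N := hn2.le.trans (by exact_mod_cast (by omega : n2 ≤ N))
    rw [div_le_iff₀ hε] at this
    linarith
  have hS₁c : (S₁.card : ℝ) ≤ N := by
    have h1 : S₁ ⊆ Icc 1 N := by rw [hS₁]; exact (filter_subset _ _).trans hSx
    have := card_le_card h1
    rw [Nat.card_Icc, Nat.add_sub_cancel] at this
    exact_mod_cast this
  have hTle : ((Bad.filter (fun m => m ∈ S₁)).card : ℝ) ≤ ε / 4 * N := by
    rcases le_or_gt (S₁.card : ℝ) (ε / 4 * N) with hsm | hbig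
    · have : (Bad.filter (fun m => m ∈ S₁)).card ≤ S₁.card := card_le_card (fun m hm => (mem_filter.1 hm).2)
      exact le_trans (by exact_mod_cast this) hsm
    have key := hlv N (by omega) S₁ (fun m => u * (m : ℤ) + v * f m + w) (by
      intro m hm
      rw [hS₁, mem_filter] at hm
      obtain ⟨_, a1, a2, a3⟩ := hm
      rw [abs_of_pos (hpos m a1 a2)]
      exact a3) (by
      have h1 : Pool.Agent.TH935.GF.En h (fun m : {m // m ∈ S₁} => u * (m.1 : ℤ) + v * f m.1 + w) ≤
          Pool.Agent.TH935.GF.En h (fun m : {m // m ∈ S} => u * (m.1 : ℤ) + v * f m.1 + w) := by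
        apply Pool.Agent.Helper85.AE.En_mono h _ _ (fun m : {m // m ∈ S₁} => (⟨m.1, hS₁S m.1 m.2⟩ : {m // m ∈ S}))
        · intro a b hab
          have h7 : a.1 = b.1 := by
            have := congrArg (fun t : {m // m ∈ S} => t.1) hab
            exact this
          exact Subtype.ext h7
        · intro m
          rfl
      have h2 : (Pool.Agent.TH935.GF.En h (fun m : {m // m ∈ S₁} => u * (m.1 : ℤ) + v * f m.1 + w) : ℝ) * N ≤
          Real.log N ^ C₁ * (N : ℝ) ^ (2 * h) :=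
        le_trans (mul_le_mul_of_nonneg_right (by exact_mod_cast h1) hN0.le) hSen
      refine h2.trans ?_
      rw [← hl]
      have h3 : (N : ℝ) ≤ l * S₁.card := by
        have h4 : l * (ε / 4 * N) ≤ l * S₁.card := mul_le_mul_of_nonneg_left hbig.le (by linarith)
        have h5 : 4 * (N : ℝ) ≤ ε * l * N := mul_le_mul_of_nonneg_right hlε hN0.le
        linarith
      calc l ^ C₁ * (N : ℝ) ^ (2 * h) ≤ l ^ C₁ * (l * S₁.card) ^ (2 * h) := by gcongr
        _ = l ^ (C₁ + 2 * h) * (S₁.card : ℝ) ^ (2 * h) := by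
            rw [mul_pow]
            ring) L hL lam hlam (Bad.filter (fun m => m ∈ S₁)) (fun m hm => (mem_filter.1 hm).2) (by
      intro m hm
      rw [mem_filter] at hm
      obtain ⟨a1, a2⟩ := hm
      obtain ⟨b1, b2, b3, b4⟩ := hBm m a1
      rw [hS₁, mem_filter] at a2
      refine ⟨hpos m a2.2.1 b2, fun hw => b4 ?_⟩
      intro i y hy
      refine (hw i y hy).trans ?_
      apply div_le_div_of_nonneg_left hN0.le (by rw [← hl]; positivity)
      rw [← hl]
      exact pow_le_pow_right₀ (by linarith) (by omega))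
    refine key.trans ?_
    rw [← hl, div_le_iff₀ (by positivity)]
    have h9 : l ≤ l ^ (U + 1) := by
      calc l = l ^ 1 := (pow_one l).symm
        _ ≤ _ := pow_le_pow_right₀ (by linarith) (by omega)
    calc (S₁.card : ℝ) ≤ N := hS₁c
      _ ≤ ε / 4 * N * l := by
          have h3 : N * 4 ≤ N * (ε * l) := mul_le_mul_of_nonneg_left hlε hN0.le
          linarith
      _ ≤ ε / 4 * N * l ^ (U + 1) := mul_le_mul_of_nonneg_left h9 (by positivity)
  have h9 : 0 < ε * N := by positivity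
  linarith

theorem moderate_totient : Moderate Nat.totient (-1) :=
  ⟨Pool.Agent.Helper85.AE.mod_totient.mul, Pool.Agent.Helper85.AE.mod_totient.pos,
    Pool.Agent.Helper85.AE.mod_totient.growth, Pool.Agent.Helper85.AE.mod_totient.prime⟩

theorem moderate_sigma : Moderate (fun m => ∑ d ∈ m.divisors, d) 1 :=
  ⟨Pool.Agent.Helper85.AE.mod_sigma.mul, Pool.Agent.Helper85.AE.mod_sigma.pos,
    Pool.Agent.Helper85.AE.mod_sigma.growth, Pool.Agent.Helper85.AE.mod_sigma.prime⟩

lemma level_anti {K K' : ℕ} (h : K ≤ K') (N : ℕ) : level K' N ≤ level K N := by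
  unfold level
  apply Nat.floor_le_floor
  apply mul_le_mul_of_nonneg_left _ (Nat.cast_nonneg _)
  apply Real.exp_le_exp.2
  have : (K : ℝ) ≤ K' := by exact_mod_cast h
  nlinarith [sq_nonneg (Real.log (Real.log N))]

/-- passing to a lower level -/
lemma well_mono {K K' B B' U N L a : ℕ} {lam : Fin L → ℕ → ℝ} (hK : K ≤ K') (hB : B ≤ B')
    (h : Well K B' U N L (fun l q => if q ≤ level K' N then lam l q else 0) a) : Well K' B U N L lam a := by
  classical
  intro l y hy
  have h1 := h l y (hy.trans (Nat.mul_le_mul_right _ hB))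
  have h2 : weighted (fun q => if q ≤ level K' N then lam l q else 0) (level K N) y a =
      weighted (lam l) (level K' N) y a := by
    unfold weighted
    symm
    have hsub : (Icc 1 (level K' N)).filter (fun q => a.Coprime q) ⊆ (Icc 1 (level K N)).filter (fun q => a.Coprime q) := by
      intro q hq
      rw [mem_filter, mem_Icc] at hq ⊢
      exact ⟨⟨hq.1.1, hq.1.2.trans (level_anti hK N)⟩, hq.2⟩
    rw [← sum_subset hsub]
    · apply sum_congr rfl
      intro q hq
      rw [mem_filter, mem_Icc] at hq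
      dsimp only
      rw [if_pos hq.1.2]
    · intro q hq hq2
      dsimp only
      rw [if_neg, zero_mul]
      intro hle
      apply hq2
      rw [mem_filter, mem_Icc] at hq ⊢
      exact ⟨⟨hq.1.1, hle⟩, hq.2⟩
  rw [h2] at h1
  exact h1

lemma sum_divisors (m : ℕ) : ∑ d ∈ m.divisors, d = aliquot m + m := by
  unfold aliquot
  exact Nat.sum_divisors_eq_sum_properDivisors_add_self

theorem both (ε : ℝ) (hε : 0 < ε) (B T U : ℕ) : ∃ K N₀ : ℕ, ∀ N : ℕ, N₀ ≤ N → ∀ L : ℕ, (L : ℝ) ≤ Real.log N ^ T →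
      ∀ lam : Fin L → ℕ → ℝ, (∀ l q, |lam l q| ≤ Real.log N ^ T) →
      num N (fun m => ¬ (Well K B U N L lam (aliquot m) ∧ Well K B U N L lam (m - Nat.totient m))) ≤ ε * N := by
  classical
  obtain ⟨B', hB'⟩ := exists_nat_gt (8 / ε)
  have hB'0 : 0 < B' := by
    have : (0 : ℝ) < B' := lt_trans (by positivity) hB'
    exact_mod_cast this
  obtain ⟨z, n0, hz⟩ := Pool.Agent.Helper85.AE.few_rough (ε / 8) (by positivity)
  obtain ⟨K1, n1, h1⟩ := general (fun m => ∑ d ∈ m.divisors, d) 1 (-1) 1 0 moderate_sigma (by norm_num) (by norm_num)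
    (ε / 4) (by positivity) (B + B') 1 T U
  obtain ⟨K2, n2, h2⟩ := general Nat.totient (-1) 1 (-1) 0 moderate_totient (by norm_num) (by norm_num)
    (ε / 4) (by positivity) (B + B') 1 T U
  obtain ⟨n3, hn3⟩ := Pool.Agent.Helper85.AE.ev_log (z + 1)
  obtain ⟨n4, hn4⟩ := exists_nat_gt (8 * (n3 + 2 : ℝ) / ε)
  obtain ⟨n5, hn5⟩ := Pool.Agent.Helper85.AE.ev_log 1
  refine ⟨max K1 K2, n0 + n1 + n2 + n3 + n4 + n5 + 3, fun N hN L hL lam hlam => ?_⟩
  have hN3 : (3 : ℝ) ≤ N := by exact_mod_cast (by omega : 3 ≤ N)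
  have hN0 : (0 : ℝ) < N := by linarith
  have hlogN : 1 ≤ Real.log N := hn5 N (by omega)
  obtain ⟨lam', hlam'⟩ : ∃ lam' : Fin L → ℕ → ℝ, lam' = fun l q => if q ≤ level (max K1 K2) N then lam l q else 0 :=
    ⟨_, rfl⟩
  have hlamb : ∀ l q, |lam' l q| ≤ Real.log N ^ T := by
    intro l q
    rw [hlam']
    dsimp only
    split_ifs
    · exact hlam l q
    · rw [abs_zero]
      positivity
  have g1 := h1 N (by omega) L hL lam' hlamb
  have g2 := h2 N (by omega) L hL lam' hlamb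
  have g3 := hz N (by omega)
  have g4 := Pool.Agent.Helper85.AE.sigma_rarely N B' (by exact_mod_cast hB'0)
  have g4' : (N : ℝ) / B' ≤ ε / 8 * N := by
    rw [div_le_iff₀ (by exact_mod_cast hB'0)]
    have h5 : 8 / ε * ε = 8 := by field_simp
    have h6 : 8 < B' * ε := by
      rw [← h5]
      exact mul_lt_mul_of_pos_right hB' hε
    nlinarith
  have g5 : (n3 + 2 : ℝ) ≤ ε / 8 * N := by
    have h5 : 8 * (n3 + 2 : ℝ) / ε ≤ N := hn4.le.trans (by exact_mod_cast (by omega : n4 ≤ N))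
    rw [div_le_iff₀ hε] at h5
    linarith
  obtain ⟨R1, hR1⟩ : ∃ R : Finset ℕ, R = (Icc 1 N).filter (fun m => ∀ p : ℕ, p.Prime → p ≤ z → ¬ p ∣ m) := ⟨_, rfl⟩
  obtain ⟨R2, hR2⟩ : ∃ R : Finset ℕ, R = (Icc 1 N).filter (fun m => (B' : ℝ) * N < ((∑ d ∈ m.divisors, d : ℕ) : ℝ)) :=
    ⟨_, rfl⟩
  obtain ⟨E1, hE1⟩ : ∃ E : ℕ → Prop, E = fun m : ℕ => (m : ℝ) / Real.log m ^ 1 ≤
    (((-1) * m + 1 * ((∑ d ∈ m.divisors, d : ℕ) : ℤ) + 0 : ℤ) : ℝ) ∧
    (-1) * (m : ℤ) + 1 * ((∑ d ∈ m.divisors, d : ℕ) : ℤ) + 0 ≤ ((B + B' : ℕ) : ℤ) * N ∧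
    ¬ Well K1 (B + B') U N L lam' ((-1) * (m : ℤ) + 1 * ((∑ d ∈ m.divisors, d : ℕ) : ℤ) + 0).toNat := ⟨_, rfl⟩
  obtain ⟨E2, hE2⟩ : ∃ E : ℕ → Prop, E = fun m : ℕ => (m : ℝ) / Real.log m ^ 1 ≤
    ((1 * m + (-1) * ((Nat.totient m : ℕ) : ℤ) + 0 : ℤ) : ℝ) ∧
    1 * (m : ℤ) + (-1) * ((Nat.totient m : ℕ) : ℤ) + 0 ≤ ((B + B' : ℕ) : ℤ) * N ∧
    ¬ Well K2 (B + B') U N L lam' (1 * (m : ℤ) + (-1) * ((Nat.totient m : ℕ) : ℤ) + 0).toNat := ⟨_, rfl⟩
  rw [← hR1] at g3
  rw [← hR2] at g4
  have g1' : num N E1 ≤ ε / 4 * N := by rw [hE1]; exact g1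
  have g2' : num N E2 ≤ ε / 4 * N := by rw [hE2]; exact g2
  unfold num at g1' g2' ⊢
  have hsub : (Icc 1 N).filter (fun m => ¬ (Well (max K1 K2) B U N L lam (aliquot m) ∧
      Well (max K1 K2) B U N L lam (m - Nat.totient m))) ⊆
      ((R1 ∪ R2) ∪ Icc 1 (n3 + 2)) ∪ ((Icc 1 N).filter E1 ∪ (Icc 1 N).filter E2) := by
    intro m hm
    rw [mem_filter] at hm
    obtain ⟨hm1, hm2⟩ := hm
    have hm3 := mem_Icc.1 hm1
    rw [mem_union, mem_union, mem_union, mem_union, mem_filter (p := E1), mem_filter (p := E2)]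
    by_cases c1 : m ∈ R1
    · exact Or.inl (Or.inl (Or.inl c1))
    by_cases c2 : m ∈ R2
    · exact Or.inl (Or.inl (Or.inr c2))
    by_cases c3 : m ≤ n3 + 2
    · exact Or.inl (Or.inr (mem_Icc.2 ⟨hm3.1, c3⟩))
    right
    have hm4 : 1 < m := by omega
    have hlogm : (z : ℝ) + 1 ≤ Real.log m := hn3 m (by omega)
    have hz0 : (0 : ℝ) ≤ z := Nat.cast_nonneg _
    have hm0 : (0 : ℝ) < m := by exact_mod_cast (by omega : 0 < m)
    obtain ⟨p, hp, hpz, hpm⟩ : ∃ p : ℕ, p.Prime ∧ p ≤ z ∧ p ∣ m := by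
      by_contra hcon
      push Not at hcon
      exact c1 (by rw [hR1, mem_filter]; exact ⟨hm1, hcon⟩)
    have hz1 : (0 : ℝ) < z := by exact_mod_cast (lt_of_lt_of_le hp.pos hpz)
    have hmz : (m : ℝ) / Real.log m ^ 1 ≤ m / z := by
      rw [pow_one]
      apply div_le_div_of_nonneg_left hm0.le hz1
      linarith
    have a1 := Pool.Agent.Helper85.AE.aliquot_ge (by omega : 1 ≤ m) hp hpm hpz
    have a2 := Pool.Agent.Helper85.AE.cototient_ge (by omega : 1 ≤ m) hp hpm hpz
    have a3 : ((∑ d ∈ m.divisors, d : ℕ) : ℝ) ≤ B' * N := by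
      by_contra hcon
      push Not at hcon
      exact c2 (by rw [hR2, mem_filter]; exact ⟨hm1, hcon⟩)
    have a3' : ((∑ d ∈ m.divisors, d : ℕ) : ℤ) ≤ B' * N := by exact_mod_cast a3
    have htot := Nat.totient_le m
    by_contra hcon
    push Not at hcon
    obtain ⟨k1, k2⟩ := hcon
    have k1' := k1 hm1
    have k2' := k2 hm1
    rw [hE1] at k1'
    rw [hE2] at k2'
    push Not at k1' k2'
    have hs := sum_divisors m
    have w1 : Well K1 (B + B') U N L lam' (aliquot m) := by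
      have := k1' (by
        refine hmz.trans (a1.trans (le_of_eq ?_))
        push_cast
        ring) (by
        have h7 : (0 : ℤ) ≤ (B : ℤ) * N := by positivity
        have h8 : (0 : ℤ) ≤ (m : ℤ) := by positivity
        push_cast at a3' ⊢
        linarith)
      have e1 : ((-1) * (m : ℤ) + 1 * ((∑ d ∈ m.divisors, d : ℕ) : ℤ) + 0).toNat = aliquot m := by
        rw [hs]
        push_cast
        omega
      rw [e1] at this
      exact this
    have w2 : Well K2 (B + B') U N L lam' (m - Nat.totient m) := by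
      have := k2' (by
        refine hmz.trans (a2.trans (le_of_eq ?_))
        push_cast
        ring) (by
        have h7 : (0 : ℤ) ≤ (B : ℤ) * N := by positivity
        have h9 : (1 : ℤ) ≤ (B' : ℤ) := by exact_mod_cast hB'0
        have h10 : (m : ℤ) ≤ N := by exact_mod_cast hm3.2
        have h11 : (0 : ℤ) ≤ (N : ℤ) := by positivity
        have h12 : (0 : ℤ) ≤ ((Nat.totient m : ℕ) : ℤ) := by positivity
        push_cast
        nlinarith)
      have e1 : (1 * (m : ℤ) + (-1) * ((Nat.totient m : ℕ) : ℤ) + 0).toNat = m - Nat.totient m := by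
        omega
      rw [e1] at this
      exact this
    rw [hlam'] at w1 w2
    exact hm2 ⟨well_mono (le_max_left _ _) (by omega) w1, well_mono (le_max_right _ _) (by omega) w2⟩
  have hc := (card_le_card hsub).trans ((card_union_le _ _).trans (add_le_add ((card_union_le _ _).trans
    (add_le_add (card_union_le _ _) le_rfl)) (card_union_le _ _)))
  rw [Nat.card_Icc, Nat.add_sub_cancel] at hc
  have hc' : ((((Icc 1 N).filter (fun m => ¬ (Well (max K1 K2) B U N L lam (aliquot m) ∧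
      Well (max K1 K2) B U N L lam (m - Nat.totient m)))).card : ℕ) : ℝ) ≤ ((R1.card + R2.card : ℝ) + (n3 + 2)) +
      (((Icc 1 N).filter E1).card + ((Icc 1 N).filter E2).card) := by exact_mod_cast hc
  have hfin : ((((Icc 1 N).filter (fun m => ¬ (Well (max K1 K2) B U N L lam (aliquot m) ∧
      Well (max K1 K2) B U N L lam (m - Nat.totient m)))).card : ℕ) : ℝ) ≤ ε * N := by
    have g1'' : (((Icc 1 N).filter E1).card : ℝ) ≤ ε / 4 * N := by convert g1'
    have g2'' : (((Icc 1 N).filter E2).card : ℝ) ≤ ε / 4 * N := by convert g2'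
    linarith
  convert hfin

/-- **Level of distribution `N exp (-K (log log N) ^ 2)` for almost all residues `s(m)` and `m - φ(m)`.** (1) Let `f` be a
positive multiplicative function of moderate growth with `f p = p + c`, `c ≠ 0`, for all large primes `p`, let `u ≠ 0`, `v`,
`w` be integers and `F(m) = u m + v f(m) + w`. For all but `ε N` of the `m ≤ N` with `m / (log m)^C ≤ F(m) ≤ B N` the primes
are well distributed in the residue classes of `F(m)` to the moduli up to `N exp (-K (log log N) ^ 2)`, on the average over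
the moduli with arbitrary coefficients. (2) Euler's function and the sum of the divisors are such functions. (3) For all but
`ε N` of the `m ≤ N` the same is true for both residues `s(m)` and `m - φ(m)`. -/
theorem result :
    (∀ (f : ℕ → ℕ) (c u v w : ℤ), Moderate f c → c ≠ 0 → u ≠ 0 → ∀ ε : ℝ, 0 < ε → ∀ B C T U : ℕ,
      ∃ K N₀ : ℕ, ∀ N : ℕ, N₀ ≤ N → ∀ L : ℕ, (L : ℝ) ≤ Real.log N ^ T →
        ∀ lam : Fin L → ℕ → ℝ, (∀ l q, |lam l q| ≤ Real.log N ^ T) →
        num N (fun m => (m : ℝ) / Real.log m ^ C ≤ ((u * m + v * f m + w : ℤ) : ℝ) ∧ u * m + v * f m + w ≤ B * N ∧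
          ¬ Well K B U N L lam (u * m + v * f m + w).toNat) ≤ ε * N) ∧
    (Moderate Nat.totient (-1) ∧ Moderate (fun m => ∑ d ∈ m.divisors, d) 1) ∧
    (∀ ε : ℝ, 0 < ε → ∀ B T U : ℕ, ∃ K N₀ : ℕ, ∀ N : ℕ, N₀ ≤ N → ∀ L : ℕ, (L : ℝ) ≤ Real.log N ^ T →
      ∀ lam : Fin L → ℕ → ℝ, (∀ l q, |lam l q| ≤ Real.log N ^ T) →
      num N (fun m => ¬ (Well K B U N L lam (aliquot m) ∧ Well K B U N L lam (m - Nat.totient m))) ≤ ε * N) :=
  ⟨fun f c u v w hf hc hu ε hε B C T U => general f c u v w hf hc hu ε hε B C T U,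
    ⟨moderate_totient, moderate_sigma⟩, fun ε hε B T U => both ε hε B T U⟩

end Pool.Agent.Results.MP_00e23e_nt.AliquotResidues
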