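import Mathlib
import Pool.Agent.Helper91K1.ManyB

/-!
The sum of the problem beyond the level `1/2`, with a maximum over a power of `x` of residue classes
inside the sum over all the moduli.

For all `θ < 43/84`, `κ < 1/3` the moduli are the squarefree `d = q t ≤ x^θ`, where `q ≤ x^κ` is arbitrary
and `t` is a product of primes in `(x^ε, x^η]`. For each `q` a set `A(q)` of at most `x^ν` integers is given;
an integer stands for a class modulo `q` times the product of all the primes in `(x^ε, x^η]`, so that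
`A(q)` is any set of at most `x^ν` systems of classes modulo `q` and modulo these primes. For each
modulus `q t` the class is any element of `A(q)` (it may depend on `q` and on `t`), and the height
`y ≤ x` may depend on `q` and `t` as well.

The proof: for each single `q` and each class the primes in that class modulo `q` are distributed over
the classes modulo `q t` with a power saving (starting file `Pool.Agent.R503.N.PiC`), then the theorem of
Bombieri and Vinogradov with a maximum over the heights (starting file `Pool.Agent.H441R3.BV.Fin`) for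
the moduli `q`.
-/

set_option autoImplicit false

namespace Pool.Agent.Results.MP_00e23e_nt.MaxInsideManyResidues

open Finset

/-- the number of primes `p ≤ y` with `p ≡ l (mod d)` -/
noncomputable def primePi (y : ℝ) (d : ℕ) (l : ℤ) : ℕ :=
  ((Icc 1 ⌊y⌋₊).filter (fun p : ℕ => p.Prime ∧ (p : ℤ) ≡ l [ZMOD d])).card

/-- `E(y; d, l) = π(y; d, l) - li(y)/φ(d)`, where `li(y)` is the integral of `1/log t` over `[2, y]` -/
noncomputable def E (y : ℝ) (d : ℕ) (l : ℤ) : ℝ :=
  (primePi y d l : ℝ) - (∫ t in (2 : ℝ)..y, 1 / Real.log t) / (Nat.totient d : ℝ)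

/-- the squarefree `q ≤ x^κ` -/
noncomputable def left (x : ℕ) (κ : ℝ) : Finset ℕ :=
  (Icc 1 ⌊(x : ℝ) ^ κ⌋₊).filter (fun q : ℕ => Squarefree q)

open Classical in
/-- the positive integers `t` with `q t ≤ x^θ`, `q t` squarefree, `(l(t), q t) = 1`, all of whose prime
factors lie in `(x^ε, x^η]` -/
noncomputable def right (x : ℕ) (θ ε η : ℝ) (q : ℕ) (l : ℕ → ℤ) : Finset ℕ :=
  (Icc 1 x).filter (fun t : ℕ => ((q * t : ℕ) : ℝ) ≤ (x : ℝ) ^ θ ∧ Squarefree (q * t) ∧
    Int.gcd (l t) (q * t : ℕ) = 1 ∧ ∀ p : ℕ, p.Prime → p ∣ t → (x : ℝ) ^ ε < p ∧ (p : ℝ) ≤ (x : ℝ) ^ η)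

theorem primePi_eq (y : ℝ) (d : ℕ) (l : ℤ) :
    (primePi y d l : ℝ) = Pool.Agent.R503.N.pn ⌊y⌋₊ d l := by
  unfold primePi Pool.Agent.R503.N.pn
  congr 2
  apply filter_congr
  intro p _
  apply and_congr_right
  intro _
  rw [Int.modEq_iff_dvd, ← neg_sub, dvd_neg]

/-- **Level `43/84`, with the maximum over any `x^ν` residue classes (for each divisor `q ≤ x^κ`,
`κ < 1/3`) inside the sum over all the moduli `q t`.** -/
theorem result : ∀ θ κ : ℝ, θ < 43 / 84 → κ < 1 / 3 → ∃ η : ℝ, 0 < η ∧ ∀ ε : ℝ, 0 < ε → ∃ ν : ℝ, 0 < ν ∧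
    ∀ U : ℕ, ∃ C : ℝ, 0 < C ∧ ∀ x : ℕ, 3 ≤ x → ∀ A : ℕ → Finset ℤ, (∀ q, ((A q).card : ℝ) ≤ (x : ℝ) ^ ν) →
    ∀ a : ℕ → ℕ → ℤ, (∀ q t, a q t ∈ A q) → ∀ y : ℕ → ℕ → ℝ, (∀ q t, 2 ≤ y q t ∧ y q t ≤ x) →
    ∑ q ∈ left x κ, ∑ t ∈ right x θ ε η q (a q), |E (y q t) (q * t) (a q t)| ≤
      C * (x / Real.log x ^ U) := by
  intro θ κ hθ hκ
  obtain ⟨η, hη, h⟩ := Pool.Agent.Helper91K1.many (max θ (1 / 2)) (max κ 0) (le_max_right _ _)
    (max_lt hθ (by norm_num)) (le_max_right _ _) (max_lt hκ (by norm_num))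
  refine ⟨η, hη, fun ε hε => ?_⟩
  obtain ⟨ν, hν, h'⟩ := h ε hε
  refine ⟨ν, hν, fun U => ?_⟩
  obtain ⟨C, hC, hx⟩ := h' U
  refine ⟨C, hC, fun x hx3 A hA a ha y hy => ?_⟩
  have hx1 : (1 : ℝ) ≤ x := by exact_mod_cast (by omega : 1 ≤ x)
  have h1 := hx x hx3 A (left x κ) (fun q => right x θ ε η q (a q)) a y (by
      intro q hq
      simp only [left, mem_filter, mem_Icc] at hq
      obtain ⟨⟨h1, h2⟩, h3⟩ := hq
      refine ⟨h1, ?_, hA q⟩
      calc (q : ℝ) ≤ (⌊(x : ℝ) ^ κ⌋₊ : ℝ) := by exact_mod_cast h2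
        _ ≤ (x : ℝ) ^ κ := Nat.floor_le (by positivity)
        _ ≤ (x : ℝ) ^ (max κ 0) := Real.rpow_le_rpow_of_exponent_le hx1 (le_max_left _ _)) (by
      intro q _ t ht
      simp only [right, mem_filter] at ht
      obtain ⟨_, h2, h3, h4, h5⟩ := ht
      have h6 : IsCoprime (a q t) ((q * t : ℕ) : ℤ) := Int.isCoprime_iff_gcd_eq_one.2 h4
      push_cast at h6
      refine ⟨ha q t, IsCoprime.of_mul_right_left h6, ⟨h3, IsCoprime.of_mul_right_right h6, h5, ?_⟩,
        (hy q t).1, (hy q t).2⟩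
      push_cast at h2
      exact h2.trans (Real.rpow_le_rpow_of_exponent_le hx1 (le_max_left _ _)))
  unfold E
  simp only [primePi_eq]
  exact h1

end Pool.Agent.Results.MP_00e23e_nt.MaxInsideManyResidues
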