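import Mathlib
import Pool.Agent.Helper91K1.T.ManyG

/-!
The sum of the problem beyond the level `1/2` with nested maxima: the residue class is chosen anew at each
prime factor of the modulus.

For all `θ < 23/45` and `κ < 1/3` the moduli are the squarefree `d = q t ≤ x^θ`, where `q ≤ x^κ` is arbitrary
and `t` is a product of primes in `(x^ε, x^η]`. The class `a(q, t)` modulo `q t` may be any class that lies
in the class `a(q, t/b)` modulo `q t/b` chosen for one of the divisors `t/b`, `1 < b ≤ x^η` (for example for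
`t` without its smallest prime factor). So for `t = p_1 ⋯ p_k`, `p_1 > ⋯ > p_k`, the sum is

`∑_q max_{a_0 mod q} ∑_{p_1} max_{a_1 mod q p_1, a_1 ≡ a_0 mod q} ∑_{p_2} max_{a_2 mod q p_1 p_2, a_2 ≡ a_1 mod q p_1} ⋯`

Moreover a maximum over `x^ν` such systems of classes and over the heights `y ≤ x` stands inside the sum over
all the moduli.

The proof: the dispersion method with classes that depend on the modulus. The pairs of moduli whose greatest
common divisor is at most a fixed power `x^γ` are treated by Weil's bound and by the `q`-van der Corput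
process in the shape of the starting files `Pool.Agent.R503.N`, for each value of the greatest common divisor
(the primes of the moduli are coloured first, so that the common divisor lies in a single factor); the pairs
with a larger common divisor are counted. The factorisations of the moduli follow the chain of the divisors
along which the classes are compatible. Then the theorem of Bombieri and Vinogradov with a maximum over
the heights (starting file `Pool.Agent.H441R3.BV.Fin`) for the moduli `q`.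
-/

set_option autoImplicit false

namespace Pool.Agent.Results.MP_00e23e_nt.NestedMaxima

open Finset

/-- the number of primes `p ≤ y` with `p ≡ l (mod d)` -/
noncomputable def primePi (y : ℝ) (d : ℕ) (l : ℤ) : ℕ :=
  ((Icc 1 ⌊y⌋₊).filter (fun p : ℕ => p.Prime ∧ (p : ℤ) ≡ l [ZMOD d])).card

/-- `E(y; d, l) = π(y; d, l) - li(y)/φ(d)`, where `li(y)` is the integral of `1/log t` over `[2, y]` -/
noncomputable def E (y : ℝ) (d : ℕ) (l : ℤ) : ℝ :=
  (primePi y d l : ℝ) - (∫ t in (2 : ℝ)..y, 1 / Real.log t) / (Nat.totient d : ℝ)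

/-- the squarefree `q ≤ x^κ` -/
noncomputable def left (x : ℕ) (κ : ℝ) : Finset ℕ :=
  (Icc 1 ⌊(x : ℝ) ^ κ⌋₊).filter (fun q : ℕ => Squarefree q)

open Classical in
/-- the positive integers `t` with `q t ≤ x^θ`, `q t` squarefree, `(l(t), q t) = 1`, all of whose prime
factors lie in `(x^ε, x^η]` -/
noncomputable def right (x : ℕ) (θ ε η : ℝ) (q : ℕ) (l : ℕ → ℤ) : Finset ℕ :=
  (Icc 1 x).filter (fun t : ℕ => ((q * t : ℕ) : ℝ) ≤ (x : ℝ) ^ θ ∧ Squarefree (q * t) ∧
    Int.gcd (l t) (q * t : ℕ) = 1 ∧ ∀ p : ℕ, p.Prime → p ∣ t → (x : ℝ) ^ ε < p ∧ (p : ℝ) ≤ (x : ℝ) ^ η)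

/-- the classes `l(t)` modulo `q t` are nested: each `t ≠ 1` has a divisor `b` with `1 < b ≤ x^η` such
that `l(t)` lies in the class `l(t/b)` modulo `q t/b` -/
def Nested (x : ℕ) (θ ε η : ℝ) (q : ℕ) (l : ℕ → ℤ) : Prop :=
  ∀ t ∈ right x θ ε η q l, t ≠ 1 → ∃ b : ℕ, 1 < b ∧ (b : ℝ) ≤ (x : ℝ) ^ η ∧ b ∣ t ∧
    l t ≡ l (t / b) [ZMOD ((q * (t / b) : ℕ) : ℤ)]

theorem primePi_eq (y : ℝ) (d : ℕ) (l : ℤ) :
    (primePi y d l : ℝ) = Pool.Agent.R503.N.pn ⌊y⌋₊ d l := by
  unfold primePi Pool.Agent.R503.N.pn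
  congr 2
  apply filter_congr
  intro p _
  apply and_congr_right
  intro _
  rw [Int.modEq_iff_dvd, ← neg_sub, dvd_neg]

/-- **Nested maxima beyond the level `1/2`.** -/
theorem result : ∀ θ κ : ℝ, θ < 23 / 45 → κ < 1 / 3 → ∃ η : ℝ, 0 < η ∧ ∀ ε : ℝ, 0 < ε → ∃ ν : ℝ, 0 < ν ∧
    ∀ U : ℕ, ∃ C : ℝ, 0 < C ∧ ∀ x : ℕ, 3 ≤ x → ∀ a : ℕ → ℕ → ℕ → ℤ, (∀ i q, Nested x θ ε η q (a i q)) →
    ∀ i : ℕ → ℕ → ℕ, (∀ q t, (i q t : ℝ) + 1 ≤ (x : ℝ) ^ ν) →
    ∀ y : ℕ → ℕ → ℝ, (∀ q t, 2 ≤ y q t ∧ y q t ≤ x) →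
    ∑ q ∈ left x κ, ∑ t ∈ right x θ ε η q (fun t => a (i q t) q t), |E (y q t) (q * t) (a (i q t) q t)| ≤
      C * (x / Real.log x ^ U) := by
  intro θ κ hθ hκ
  obtain ⟨η, hη, h⟩ := Pool.Agent.Helper91K1.T.manyG (max θ (1 / 2)) (max κ 0) (le_max_right _ _)
    (max_lt hθ (by norm_num)) (le_max_right _ _) (max_lt hκ (by norm_num))
  refine ⟨η, hη, fun ε hε => ?_⟩
  obtain ⟨ν, hν, h'⟩ := h ε hε
  refine ⟨ν, hν, fun U => ?_⟩
  obtain ⟨C, hC, hx⟩ := h' U
  refine ⟨C, hC, fun x hx3 a ha i hi y hy => ?_⟩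
  have hx1 : (1 : ℝ) ≤ x := by exact_mod_cast (by omega : 1 ≤ x)
  have h1 := hx x hx3 (fun _ => range ⌊(x : ℝ) ^ ν⌋₊) (left x κ)
    (fun q => right x θ ε η q (fun t => a (i q t) q t)) (fun q k t => a k q t)
    (fun q k => {t | t ∈ right x θ ε η q (a k q)}) i y (by
      intro q hq
      simp only [left, mem_filter, mem_Icc] at hq
      obtain ⟨⟨h1, h2⟩, h3⟩ := hq
      refine ⟨h1, ?_, ?_⟩
      · calc (q : ℝ) ≤ (⌊(x : ℝ) ^ κ⌋₊ : ℝ) := by exact_mod_cast h2
          _ ≤ (x : ℝ) ^ κ := Nat.floor_le (by positivity)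
          _ ≤ (x : ℝ) ^ (max κ 0) := Real.rpow_le_rpow_of_exponent_le hx1 (le_max_left _ _)
      · rw [card_range]
        exact Nat.floor_le (by positivity)) (by
      intro q hq k _
      have hmem : ∀ t ∈ right x θ ε η q (a k q),
          Pool.Agent.R503.N.Mo x q (a k q t) (max θ (1 / 2)) ε η t ∧ IsCoprime (a k q t) (q : ℤ) := by
        intro t ht
        simp only [right, mem_filter] at ht
        obtain ⟨_, h2, h3, h4, h5⟩ := ht
        have h6 : IsCoprime (a k q t) ((q * t : ℕ) : ℤ) := Int.isCoprime_iff_gcd_eq_one.2 h4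
        push_cast at h6
        refine ⟨⟨h3, IsCoprime.of_mul_right_right h6, h5, ?_⟩, IsCoprime.of_mul_right_left h6⟩
        push_cast at h2
        exact h2.trans (Real.rpow_le_rpow_of_exponent_le hx1 (le_max_left _ _))
      refine ⟨fun t ht => (hmem t ht).1, fun t ht => (hmem t ht).2, ?_⟩
      intro t ht ht1
      obtain ⟨b, b1, b2, b3, b4⟩ := ha k q t ht ht1
      have hdv : ((q * (t / b) : ℕ) : ℤ) ∣ a k q t - a k q (t / b) := (Int.modEq_iff_dvd.1 b4.symm)
      refine ⟨b, b1, b2, b3, ?_, hdv⟩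
      have ht' := ht
      simp only [Set.mem_ofPred_eq, right, mem_filter, mem_Icc] at ht' ⊢
      obtain ⟨⟨h0, h1⟩, h2, h3, h4, h5⟩ := ht'
      have hd : t / b ∣ t := Nat.div_dvd_of_dvd b3
      have hqd : q * (t / b) ∣ q * t := Nat.mul_dvd_mul_left q hd
      have hqt0 : 0 < q * t := Nat.pos_of_ne_zero h3.ne_zero
      refine ⟨⟨Nat.div_pos (Nat.le_of_dvd (by omega) b3) (by omega), (Nat.div_le_self t b).trans h1⟩, ?_,
        h3.squarefree_of_dvd hqd, ?_, fun p hp hpt => h5 p hp (hpt.trans hd)⟩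
      · refine le_trans ?_ h2
        exact_mod_cast Nat.le_of_dvd hqt0 hqd
      · have h6 : IsCoprime (a k q t) ((q * t : ℕ) : ℤ) := Int.isCoprime_iff_gcd_eq_one.2 h4
        have h7 : IsCoprime (a k q t) ((q * (t / b) : ℕ) : ℤ) :=
          h6.of_isCoprime_of_dvd_right (Int.natCast_dvd_natCast.2 hqd)
        obtain ⟨w, hw⟩ := hdv
        have h8 : a k q (t / b) = a k q t + ((q * (t / b) : ℕ) : ℤ) * (-w) := by linarith
        have h9 : IsCoprime (a k q (t / b)) ((q * (t / b) : ℕ) : ℤ) := by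
          rw [h8]
          exact IsCoprime.add_mul_left_left h7 _
        exact Int.isCoprime_iff_gcd_eq_one.1 h9) (by
      intro q _ t ht
      refine ⟨?_, ?_, (hy q t).1, (hy q t).2⟩
      · rw [mem_range]
        have h2 : i q t + 1 ≤ ⌊(x : ℝ) ^ ν⌋₊ := by
          apply Nat.le_floor
          push_cast
          exact hi q t
        omega
      · simp only [right, mem_filter, Set.mem_ofPred_eq] at ht ⊢
        exact ht)
  unfold E
  simp only [primePi_eq]
  exact h1

end Pool.Agent.Results.MP_00e23e_nt.NestedMaxima
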