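import Pool.Agent.Helper85.RP.Near
import Pool.Agent.TH646.LV.Level

/-!
# Level of distribution `X exp (-K (log log N) ^ 2)` for all the residues near almost all values of a real polynomial in
several variables

Let `F` be a polynomial in `n` variables with real coefficients, of total degree `d ≥ 1`, and `X = N^d`. For all the integer
points `x` of the box `|x_i| ≤ N` with at most `N^n / (log N)^U` exceptions, ALL the residues `b > 0` at a distance of at most
`(log N)^T` from `F(x)` have the level of distribution `X exp (-K (log log N)^2)`, for given systems of coefficients and all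
`y ≤ (log N)^K₀ X`. Only the homogeneous part of the degree `d` is fixed; the result is uniform in all the coefficients of the
lower degrees, and there is no Diophantine condition on the coefficients.

Proof. The integer parts of the values on the box have nearly minimal additive energy (`energy_box` in `Helper85/RP/Slice`):
the restrictions to the lines in a direction in which the highest form does not vanish are polynomials with a fixed highest
coefficient, the number of the frequencies with a large Weyl sum is bounded uniformly in the lower coefficients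
(`Helper85/RP/Phase`), and a kernel of Fejér and the inequality of Hölder give the energy. The theorem on the level of
distribution for families of nearly minimal energy (`TH646/LV`, starting files) completes the proof.

From Mathlib: `ArithmeticFunction.vonMangoldt`: the function `Λ`; `Nat.totient`: Euler's function.
-/

set_option autoImplicit false

namespace Pool.Agent.Results.MP_00e23e_nt.RealPolynomialResidues

open Finset
open Pool.Agent.TH935.GF (En)

/-- `ψ(y; q, a)`: the sum of `Λ(n)` over the `n ≤ y` with `n ≡ a (mod q)`. -/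
noncomputable def psi (y q a : ℕ) : ℝ :=
  ∑ n ∈ (Icc 1 y).filter (fun n => n ≡ a [MOD q]), ArithmeticFunction.vonMangoldt n

/-- The sum of `λ(q) (ψ(y; q, a) - y / φ(q))` over the `q ≤ Q` coprime to `a`. -/
noncomputable def weighted (lam : ℕ → ℝ) (Q y a : ℕ) : ℝ :=
  ∑ q ∈ (Icc 1 Q).filter (fun q => a.Coprime q), lam q * (psi y q a - (y : ℝ) / Nat.totient q)

/-- The level `N^d exp (-K (log log N) ^ 2)`, rounded down. -/
noncomputable def level (K d N : ℕ) : ℕ := ⌊(N : ℝ) ^ d * Real.exp (-(K * Real.log (Real.log N) ^ 2))⌋₊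

/-- The primes are well distributed in the residue classes of `b`: for all the systems `λ_l` of coefficients and all
`y ≤ (log N)^K₀ N^d` the weighted sum up to the level `N^d exp (-K (log log N) ^ 2)` is at most `N^d / (log N)^U`. -/
def Well (K K₀ U d N L : ℕ) (lam : Fin L → ℕ → ℝ) (b : ℕ) : Prop :=
  ∀ l, ∀ y : ℕ, (y : ℝ) ≤ Real.log N ^ K₀ * (N : ℝ) ^ d →
    |weighted (lam l) (level K d N) y b| ≤ (N : ℝ) ^ d / Real.log N ^ U

/-- the integer points `x` with `|x_i| ≤ N` -/
def box (n N : ℕ) : Set (Fin n → ℤ) := {x | ∀ i, |x i| ≤ N}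

/-- the value of a real polynomial at an integer point -/
noncomputable def val {n : ℕ} (F : MvPolynomial (Fin n) ℝ) (x : Fin n → ℤ) : ℝ :=
  MvPolynomial.eval (fun i => (x i : ℝ)) F

/-- the number of the points `x` of the box for which some residue `b > 0` at a distance of at most `R` from `F(x)` is not
well distributed -/
noncomputable def exceptions {n : ℕ} (K K₀ U d L : ℕ) (lam : Fin L → ℕ → ℝ) (R : ℝ) (F : MvPolynomial (Fin n) ℝ) (N : ℕ) : ℕ :=
  Nat.card {x : Fin n → ℤ // x ∈ box n N ∧ ∃ b : ℕ, 0 < b ∧ |(b : ℝ) - val F x| ≤ R ∧ ¬ Well K K₀ U d N L lam b}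

/-- the level of distribution for families of small energy -/
theorem lv_type (p C T U : ℕ) : ∃ K N₀ : ℕ, ∀ Q : ℕ, N₀ ≤ Q → ∀ (ι : Type) [Fintype ι] (v : ι → ℤ), (∀ i, |v i| ≤ Q) →
    (En p v : ℝ) * Q ≤ Real.log Q ^ C * (Fintype.card ι : ℝ) ^ (2 * p) →
    ∀ lam : ℕ → ℝ, (∀ q, |lam q| ≤ Real.log Q ^ T) → ∀ R : ℕ,
    (R : ℝ) ≤ Q * Real.exp (-(K * Real.log (Real.log Q) ^ 2)) →
    ∀ S : Finset ι, (∀ i ∈ S, 0 < v i ∧ ∃ y ≤ Q, Q / Real.log Q ^ U < |weighted lam R y (v i).toNat|) →
    (S.card : ℝ) ≤ Fintype.card ι / Real.log Q ^ U := by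
  classical
  obtain ⟨K, N₀, h0⟩ := Pool.Agent.TH646.LV.lv_fam p 1 C T U
  refine ⟨K, N₀, fun Q hQ ι _ v hv hE lam hlam R hR S hS => ?_⟩
  rcases isEmpty_or_nonempty ι with hemp | hne
  · have h1 : S = ∅ := Finset.eq_empty_of_isEmpty S
    rw [h1, card_empty, Nat.cast_zero]
    have : 0 ≤ Real.log (Q : ℝ) := Real.log_natCast_nonneg Q
    positivity
  obtain ⟨e, g, hg1, hg2, hg3, hen⟩ := Pool.Agent.Helper85.RP.enum_type v p
  have h2 := h0 Q hQ (Fintype.card ι) (fun m => v (e m)) (fun m _ => by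
      rw [Nat.cast_one, one_mul]
      exact hv _) (by
      refine le_trans ?_ hE
      apply mul_le_mul_of_nonneg_right _ (Nat.cast_nonneg _)
      exact_mod_cast hen) lam hlam R hR (S.image g) (by
      intro m hm
      obtain ⟨i, _, rfl⟩ := mem_image.1 hm
      exact hg1 i) (by
      intro m hm
      obtain ⟨i, hi, rfl⟩ := mem_image.1 hm
      rw [hg2]
      obtain ⟨h3, y, hy, h4⟩ := hS i hi
      exact ⟨h3, y, by rw [one_mul]; exact hy, h4⟩)
  rw [card_image_of_injOn (fun a _ b _ hab => by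
    have := congrArg e hab
    rwa [hg2, hg2] at this)] at h2
  exact h2

theorem uniform (n d K₀ T U W : ℕ) (hd : 1 ≤ d) (Φ : MvPolynomial (Fin n) ℝ) (hΦ : Φ.IsHomogeneous d)
    (hΦ0 : Φ ≠ 0) : ∃ K N₀ : ℕ, ∀ N : ℕ, N₀ ≤ N → ∀ L : ℕ, (L : ℝ) ≤ Real.log N ^ W →
      ∀ lam : Fin L → ℕ → ℝ, (∀ l q, |lam l q| ≤ Real.log N ^ W) →
      ∀ G : MvPolynomial (Fin n) ℝ, G.totalDegree < d →
      (∀ x ∈ box n N, |val (Φ + G) x| ≤ Real.log N ^ K₀ * (N : ℝ) ^ d) →
      (exceptions K K₀ U d L lam (Real.log N ^ T) (Φ + G) N : ℝ) ≤ (N : ℝ) ^ n / Real.log N ^ U := by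
  classical
  obtain ⟨K₁, hK₁⟩ : ∃ K₁ : ℕ, K₁ = K₀ + T + 1 := ⟨_, rfl⟩
  obtain ⟨h, C, U', hh, N₁, h1⟩ := Pool.Agent.Helper85.RP.near n d K₁ T U hd Φ hΦ hΦ0
  obtain ⟨U₂, hU₂⟩ : ∃ U₂ : ℕ, U₂ = U' + W + K₁ + U := ⟨_, rfl⟩
  obtain ⟨K, N₂, h2⟩ := lv_type h C W U₂
  obtain ⟨n1, hn1⟩ := Pool.Agent.Helper85.AE.ev_log (d + 5)
  obtain ⟨n2, hn2⟩ := Pool.Agent.Helper85.AE.ev_pow 1 (by norm_num) K₁ 1
  refine ⟨4 * K, N₁ + N₂ + n1 + n2 + 3, fun N hN M hM lam hlam G hG hb => ?_⟩
  have hN0 : (0 : ℝ) < N := by exact_mod_cast (by omega : 0 < N)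
  have hN1 : (1 : ℝ) ≤ N := by exact_mod_cast (by omega : 1 ≤ N)
  have hL := hn1 N (by omega)
  have hLp := hn2 N (by omega)
  rw [one_mul, Real.rpow_one] at hLp
  obtain ⟨L, hLd⟩ : ∃ L, L = Real.log (N : ℝ) := ⟨_, rfl⟩
  rw [← hLd] at hL hLp hM hlam
  have hd0 : (0 : ℝ) ≤ d := Nat.cast_nonneg _
  have hL5 : 5 ≤ L := by linarith
  have hLK : 1 ≤ L ^ K₀ := one_le_pow₀ (by linarith)
  have hLT : 1 ≤ L ^ T := one_le_pow₀ (by linarith)
  have hLK₁ : 1 ≤ L ^ K₁ := one_le_pow₀ (by linarith)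
  have hNd1 : 1 ≤ (N : ℝ) ^ d := one_le_pow₀ hN1
  have hNd : (N : ℝ) ≤ (N : ℝ) ^ d := by
    calc (N : ℝ) = (N : ℝ) ^ 1 := (pow_one _).symm
      _ ≤ _ := pow_le_pow_right₀ hN1 hd
  have hX : 1 ≤ L ^ K₀ * L ^ T := one_le_mul_of_one_le_of_one_le hLK hLT
  have hL3 : L ^ K₁ = L ^ K₀ * L ^ T * L := by rw [hK₁]; ring
  have hY : L ^ K₀ * L ^ T * (N : ℝ) ^ d * 5 ≤ L ^ K₁ * (N : ℝ) ^ d := by
    rw [hL3]
    have : 0 ≤ L ^ K₀ * L ^ T * (N : ℝ) ^ d := by positivity
    nlinarith
  have e1 : L ^ K₀ * (N : ℝ) ^ d ≤ L ^ K₀ * L ^ T * (N : ℝ) ^ d := by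
    apply mul_le_mul_of_nonneg_right _ (by positivity)
    exact le_mul_of_one_le_right (by positivity) hLT
  have e3 : 1 ≤ L ^ K₀ * L ^ T * (N : ℝ) ^ d := one_le_mul_of_one_le_of_one_le hX hNd1
  have hkey : L ^ K₀ * (N : ℝ) ^ d + L ^ T + 3 ≤ L ^ K₁ * (N : ℝ) ^ d := by
    have e2 : L ^ T ≤ L ^ K₀ * L ^ T * (N : ℝ) ^ d := by
      calc L ^ T = 1 * L ^ T * 1 := by ring
        _ ≤ _ := mul_le_mul (mul_le_mul_of_nonneg_right hLK (by positivity)) hNd1 (by norm_num) (by positivity)
    linarith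
  obtain ⟨Q, hQ⟩ : ∃ Q : ℕ, Q = ⌊L ^ K₁ * (N : ℝ) ^ d⌋₊ := ⟨_, rfl⟩
  have hQ1 : (Q : ℝ) ≤ L ^ K₁ * (N : ℝ) ^ d := by rw [hQ]; exact Nat.floor_le (by positivity)
  have hQ2 : L ^ K₁ * (N : ℝ) ^ d < Q + 1 := by rw [hQ]; exact Nat.lt_floor_add_one _
  have hXQ : (N : ℝ) ^ d ≤ Q := by
    have : (N : ℝ) ^ d ≤ L ^ K₀ * (N : ℝ) ^ d := le_mul_of_one_le_left (by positivity) hLK
    linarith
  have hNQ : N ≤ Q := by exact_mod_cast hNd.trans hXQ
  have hQ0 : (0 : ℝ) < Q := by linarith
  have hLQ : L ≤ Real.log Q := by rw [hLd]; exact Real.log_le_log hN0 (by exact_mod_cast hNQ)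
  -- the level
  have hlev : (level (4 * K) d N : ℝ) ≤ Q * Real.exp (-(K * Real.log (Real.log Q) ^ 2)) := by
    have a1 : Real.log Q ≤ (d + 1) * L := by
      calc Real.log Q ≤ Real.log ((N : ℝ) ^ (d + 1)) := by
            apply Real.log_le_log hQ0
            refine hQ1.trans ?_
            calc L ^ K₁ * (N : ℝ) ^ d ≤ N * (N : ℝ) ^ d := mul_le_mul_of_nonneg_right hLp (by positivity)
              _ = _ := by ring
        _ = _ := by rw [Real.log_pow, ← hLd]; push_cast; ring
    have a2 : Real.log (Real.log Q) ≤ 2 * Real.log L := by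
      calc Real.log (Real.log Q) ≤ Real.log (L ^ 2) := by
            apply Real.log_le_log (by linarith)
            refine a1.trans ?_
            rw [pow_two]
            exact mul_le_mul_of_nonneg_right (by linarith) (by linarith)
        _ = _ := by rw [Real.log_pow]; push_cast; ring
    have a3 : 0 ≤ Real.log (Real.log Q) := Real.log_nonneg (by linarith)
    have a4 : Real.log (Real.log Q) ^ 2 ≤ 4 * Real.log L ^ 2 := by
      calc _ ≤ (2 * Real.log L) ^ 2 := pow_le_pow_left₀ a3 a2 2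
        _ = _ := by ring
    unfold level
    refine (Nat.floor_le (by positivity)).trans ?_
    apply mul_le_mul hXQ _ (Real.exp_pos _).le hQ0.le
    apply Real.exp_le_exp.2
    rw [← hLd]
    push_cast
    have : (K : ℝ) * Real.log (Real.log Q) ^ 2 ≤ K * (4 * Real.log L ^ 2) :=
      mul_le_mul_of_nonneg_left a4 (Nat.cast_nonneg _)
    linarith
  have hbL : ∀ x ∈ box n N, |val (Φ + G) x| ≤ L ^ K₀ * (N : ℝ) ^ d := by rw [hLd]; exact hb
  have h3 := h1 N (by omega) G hG Q hNQ (by rw [← hLd]; exact hQ1) (fun x hx => by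
    have e4 := hbL x (fun i => Pool.Agent.Helper85.RP.mem_box.1 hx i)
    unfold val at e4
    rw [← hLd]
    linarith) (fun b => 0 < b ∧ ¬ Well (4 * K) K₀ U d N M lam b.toNat) (by
      intro ι _ v hv hE S hS
      have hone : ∀ l : Fin M, ((S.filter (fun i => ∃ y : ℕ, (y : ℝ) ≤ L ^ K₀ * (N : ℝ) ^ d ∧
          (N : ℝ) ^ d / L ^ U < |weighted (lam l) (level (4 * K) d N) y (v i).toNat|)).card : ℝ) ≤
          Fintype.card ι / Real.log Q ^ U₂ := by
        intro l
        refine h2 Q (by omega) ι v hv hE (lam l) (fun q => (hlam l q).trans ?_) (level (4 * K) d N) hlev _ ?_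
        · exact pow_le_pow_left₀ (by linarith) hLQ _
        · intro i hi
          rw [mem_filter] at hi
          obtain ⟨hiS, y, hy, h5⟩ := hi
          refine ⟨(hS i hiS).1, y, ?_, lt_of_le_of_lt ?_ h5⟩
          · rw [hQ]
            apply Nat.le_floor
            linarith
          · calc (Q : ℝ) / Real.log Q ^ U₂ ≤ (L ^ K₁ * (N : ℝ) ^ d) / L ^ U₂ := by
                  apply div_le_div₀ (by positivity) hQ1 (by positivity)
                  exact pow_le_pow_left₀ (by linarith) hLQ _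
              _ = (N : ℝ) ^ d / L ^ (U' + W + U) := by
                  rw [hU₂, show U' + W + K₁ + U = K₁ + (U' + W + U) by ring, pow_add]
                  field_simp
              _ ≤ _ := by
                  apply div_le_div_of_nonneg_left (by positivity) (by positivity)
                  exact pow_le_pow_right₀ (by linarith) (by omega)
      have hsub : S ⊆ (univ : Finset (Fin M)).biUnion (fun l => S.filter (fun i => ∃ y : ℕ, (y : ℝ) ≤ L ^ K₀ * (N : ℝ) ^ d ∧
          (N : ℝ) ^ d / L ^ U < |weighted (lam l) (level (4 * K) d N) y (v i).toNat|)) := by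
        intro i hi
        have h5 := (hS i hi).2
        unfold Well at h5
        push Not at h5
        obtain ⟨l, y, hy, h6⟩ := h5
        rw [mem_biUnion]
        refine ⟨l, mem_univ _, ?_⟩
        rw [mem_filter]
        rw [← hLd] at hy h6
        exact ⟨hi, y, hy, h6⟩
      calc (S.card : ℝ) ≤ ∑ l : Fin M, ((S.filter (fun i => ∃ y : ℕ, (y : ℝ) ≤ L ^ K₀ * (N : ℝ) ^ d ∧
              (N : ℝ) ^ d / L ^ U < |weighted (lam l) (level (4 * K) d N) y (v i).toNat|)).card : ℝ) := by
            exact_mod_cast (card_le_card hsub).trans card_biUnion_le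
        _ ≤ ∑ _l : Fin M, (Fintype.card ι / Real.log Q ^ U₂ : ℝ) := sum_le_sum fun l _ => hone l
        _ = M * (Fintype.card ι / Real.log Q ^ U₂) := by rw [sum_const, card_univ, Fintype.card_fin, nsmul_eq_mul]
        _ ≤ Real.log Q ^ W * (Fintype.card ι / Real.log Q ^ U₂) := by
            apply mul_le_mul_of_nonneg_right _ (by positivity)
            exact hM.trans (pow_le_pow_left₀ (by linarith) hLQ _)
        _ = Fintype.card ι / Real.log Q ^ (U' + K₁ + U) := by
            have : 0 < Real.log (Q : ℝ) := by linarith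
            rw [hU₂, show U' + W + K₁ + U = W + (U' + K₁ + U) by ring, pow_add (Real.log (Q : ℝ)) W]
            field_simp
        _ ≤ _ := by
            apply div_le_div_of_nonneg_left (Nat.cast_nonneg _) (pow_pos (by linarith) _)
            exact pow_le_pow_right₀ (by linarith) (by omega))
  refine le_trans ?_ h3
  unfold exceptions
  apply Nat.cast_le.2
  rw [← Fintype.card_coe, ← Nat.card_eq_fintype_card]
  apply Nat.card_le_card_of_injective (fun x => ⟨x.1, by
    rw [mem_filter, Pool.Agent.Helper85.RP.mem_box]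
    obtain ⟨hx, b, hb0, hb1, hb2⟩ := x.2
    exact ⟨fun i => hx i, b, by rw [Int.cast_natCast]; exact hb1, by exact_mod_cast hb0, by rw [Int.toNat_natCast]; exact hb2⟩⟩)
  intro x y hxy
  simp only [Subtype.mk.injEq] at hxy
  exact Subtype.ext hxy

/-- **Level of distribution `X exp (-K (log log N) ^ 2)`, `X = N^d`, for all the residues near almost all values of a real
polynomial of degree `d ≥ 1` in `n` variables.** Let `Φ ≠ 0` be a real form of the degree `d` in `n` variables. There are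
`K` and `N₀` such that for `N ≥ N₀`, at most `(log N)^W` systems of coefficients of absolute values at most `(log N)^W`, and
all the real polynomials `G` of total degree less than `d` for which `F = Φ + G` is at most `(log N)^K₀ N^d` in absolute value
on the integer points of the box `|x_i| ≤ N`: for all these points `x` with at most `N^n / (log N)^U` exceptions, all the
residues `b > 0` at a distance of at most `(log N)^T` from `F(x)` are well distributed (`Well`). -/
theorem result (n d K₀ T U W : ℕ) (hd : 1 ≤ d) (Φ : MvPolynomial (Fin n) ℝ) (hΦ : Φ.IsHomogeneous d)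
    (hΦ0 : Φ ≠ 0) : ∃ K N₀ : ℕ, ∀ N : ℕ, N₀ ≤ N → ∀ L : ℕ, (L : ℝ) ≤ Real.log N ^ W →
      ∀ lam : Fin L → ℕ → ℝ, (∀ l q, |lam l q| ≤ Real.log N ^ W) →
      ∀ G : MvPolynomial (Fin n) ℝ, G.totalDegree < d →
      (∀ x ∈ box n N, |val (Φ + G) x| ≤ Real.log N ^ K₀ * (N : ℝ) ^ d) →
      (exceptions K K₀ U d L lam (Real.log N ^ T) (Φ + G) N : ℝ) ≤ (N : ℝ) ^ n / Real.log N ^ U :=
  uniform n d K₀ T U W hd Φ hΦ hΦ0

end Pool.Agent.Results.MP_00e23e_nt.RealPolynomialResidues
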